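import Pool.Agent.Helper12.MA.StA
import Pool.Agent.Helper12.MA.Lib

/-!
# FAY: paths in a face
-/

set_option autoImplicit false

namespace Pool.Agent.Helper42.MA

open Pool.Agent.Helper12.MA
open Pool.Agent.Helper51.AJ (IsMinor Planar Apex ExMinor Con Tch)
open Pool.Agent.Helper12.NK (rst Kc add cnt Pcy IsFace Cof plus)

private theorem conSing {V : Type} (M : SimpleGraph V) (v : V) : Con M {v} := by
  unfold Pool.Agent.Helper51.AJ.Con
  rw [SimpleGraph.induce_singleton_eq_top]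
  exact SimpleGraph.connected_top

/-- A segment of a path is connected. -/
private theorem seg {V : Type} (M : SimpleGraph V) (g : ℕ → V) (i : ℕ) (n : ℕ)
    (h : ∀ l, i ≤ l → l < i + n → M.Adj (g l) (g (l + 1))) :
    Con M {x | ∃ l, i ≤ l ∧ l ≤ i + n ∧ x = g l} := by
  induction n with
  | zero =>
    have e : {x | ∃ l, i ≤ l ∧ l ≤ i + 0 ∧ x = g l} = {g i} := by
      ext x
      constructor
      · rintro ⟨l, h1, h2, rfl⟩
        have : l = i := by omega
        rw [this]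
        rfl
      · intro hx
        exact ⟨i, le_rfl, by omega, hx⟩
    rw [e]
    exact conSing M (g i)
  | succ n ih =>
    have ih' := ih fun l h1 h2 => h l h1 (by omega)
    have e : {x | ∃ l, i ≤ l ∧ l ≤ i + (n + 1) ∧ x = g l} =
        {x | ∃ l, i ≤ l ∧ l ≤ i + n ∧ x = g l} ∪ {g (i + n + 1)} := by
      ext x
      constructor
      · rintro ⟨l, h1, h2, rfl⟩
        rcases Nat.lt_or_ge (i + n) l with h3 | h3
        · have : l = i + n + 1 := by omega
          rw [this]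
          exact Or.inr rfl
        · exact Or.inl ⟨l, h1, h3, rfl⟩
      · rintro (⟨l, h1, h2, rfl⟩ | hx)
        · exact ⟨l, h1, by omega, rfl⟩
        · exact ⟨i + n + 1, by omega, by omega, hx⟩
    rw [e]
    have hs : Con M {g (i + n + 1)} := conSing M _
    exact SimpleGraph.connected_induce_union ih'.preconnected hs.preconnected
      ⟨i + n, by omega, le_rfl, rfl⟩ rfl (h (i + n) (by omega) (by omega))

private theorem core {V : Type} (M : SimpleGraph V) (F : Set V) (z : V) (k : ℕ) (g : ℕ → V)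
    (hS : F \ {z} = {x | ∃ j, j ≤ k ∧ x = g j})
    (hi : ∀ i j, i ≤ k → j ≤ k → g i = g j → i = j)
    (ha : ∀ i j, i ≤ k → j ≤ k → (M.Adj (g i) (g j) ↔ (j = i + 1 ∨ i = j + 1)))
    (j : ℕ) (hj : j ≤ k) :
    ∃ A B : Set V, A ∪ B = F \ {z, g j} ∧ Disjoint A B ∧ ¬ Tch M A B ∧
      ((g 0 = g j ∧ A = ∅) ∨ (g 0 ≠ g j ∧ g 0 ∈ A ∧ Con M A ∧ Tch M {g j} A)) ∧
      ((g k = g j ∧ B = ∅) ∨ (g k ≠ g j ∧ g k ∈ B ∧ Con M B ∧ Tch M {g j} B)) := by
  have hF : ∀ x, x ∈ F \ {z, g j} ↔ ∃ l, l ≤ k ∧ l ≠ j ∧ x = g l := by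
    intro x
    constructor
    · rintro ⟨h1, h2⟩
      have h3 : x ∈ F \ {z} := ⟨h1, fun h => h2 (Or.inl h)⟩
      rw [hS] at h3
      obtain ⟨l, h4, rfl⟩ := h3
      exact ⟨l, h4, fun h => h2 (Or.inr (by rw [h]; rfl)), rfl⟩
    · rintro ⟨l, h1, h2, rfl⟩
      have h3 : g l ∈ F \ {z} := by
        rw [hS]
        exact ⟨l, h1, rfl⟩
      refine ⟨h3.1, ?_⟩
      rintro (h | h)
      · exact h3.2 h
      · exact h2 (hi l j h1 hj h)
  refine ⟨{x | ∃ l, l < j ∧ x = g l}, {x | ∃ l, j < l ∧ l ≤ k ∧ x = g l}, ?_, ?_, ?_, ?_, ?_⟩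
  · ext x
    rw [hF]
    constructor
    · rintro (⟨l, h1, rfl⟩ | ⟨l, h1, h2, rfl⟩)
      · exact ⟨l, by omega, by omega, rfl⟩
      · exact ⟨l, h2, by omega, rfl⟩
    · rintro ⟨l, h1, h2, rfl⟩
      rcases Nat.lt_or_ge l j with h3 | h3
      · exact Or.inl ⟨l, h3, rfl⟩
      · exact Or.inr ⟨l, by omega, h1, rfl⟩
  · rw [Set.disjoint_left]
    rintro x ⟨l, h1, rfl⟩ ⟨l', h2, h3, h4⟩
    have := hi l l' (by omega) h3 h4
    omega
  · rintro ⟨x, ⟨l, h1, rfl⟩, y, ⟨l', h2, h3, rfl⟩, h4⟩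
    have := (ha l l' (by omega) h3).1 h4
    omega
  · rcases Nat.eq_zero_or_pos j with h0 | h0
    · left
      refine ⟨by rw [h0], ?_⟩
      rw [Set.eq_empty_iff_forall_notMem]
      rintro x ⟨l, h1, -⟩
      omega
    · right
      refine ⟨fun h => ?_, ⟨0, h0, rfl⟩, ?_, ?_⟩
      · have := hi 0 j (by omega) hj h
        omega
      · have h1 := seg M g 0 (j - 1) fun l _ h2 => (ha l (l + 1) (by omega) (by omega)).2 (Or.inl rfl)
        have e : {x | ∃ l, 0 ≤ l ∧ l ≤ 0 + (j - 1) ∧ x = g l} = {x | ∃ l, l < j ∧ x = g l} := by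
          ext x
          constructor
          · rintro ⟨l, _, h2, rfl⟩
            exact ⟨l, by omega, rfl⟩
          · rintro ⟨l, h2, rfl⟩
            exact ⟨l, by omega, by omega, rfl⟩
        rwa [e] at h1
      · exact ⟨g j, rfl, g (j - 1), ⟨j - 1, by omega, rfl⟩,
          (ha j (j - 1) hj (by omega)).2 (Or.inr (by omega))⟩
  · rcases Nat.eq_or_lt_of_le hj with h0 | h0
    · left
      refine ⟨by rw [h0], ?_⟩
      rw [Set.eq_empty_iff_forall_notMem]
      rintro x ⟨l, h1, h2, -⟩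
      omega
    · right
      refine ⟨fun h => ?_, ⟨k, h0, le_rfl, rfl⟩, ?_, ?_⟩
      · have := hi k j le_rfl hj h
        omega
      · have h1 := seg M g (j + 1) (k - (j + 1))
          fun l _ h2 => (ha l (l + 1) (by omega) (by omega)).2 (Or.inl rfl)
        have e : {x | ∃ l, j + 1 ≤ l ∧ l ≤ j + 1 + (k - (j + 1)) ∧ x = g l} =
            {x | ∃ l, j < l ∧ l ≤ k ∧ x = g l} := by
          ext x
          constructor
          · rintro ⟨l, h3, h2, rfl⟩
            exact ⟨l, by omega, by omega, rfl⟩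
          · rintro ⟨l, h3, h2, rfl⟩
            exact ⟨l, by omega, by omega, rfl⟩
        rwa [e] at h1
      · exact ⟨g j, rfl, g (j + 1), ⟨j + 1, by omega, by omega, rfl⟩,
          (ha j (j + 1) hj (by omega)).2 (Or.inl rfl)⟩

theorem hFAY : StFAX → StFAY := by
  intro hX V _ M U F hF z hz
  obtain ⟨k, g, hk, hS, hi, ha, hza⟩ := (hX V M U F hF).2.2.2.2.1 z hz
  refine ⟨?_, ?_⟩
  · have h1 := seg M g 0 k fun l _ h2 => (ha l (l + 1) (by omega) (by omega)).2 (Or.inl rfl)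
    have e : {x | ∃ l, 0 ≤ l ∧ l ≤ 0 + k ∧ x = g l} = F \ {z} := by
      rw [hS]
      ext x
      constructor
      · rintro ⟨l, _, h2, rfl⟩
        exact ⟨l, by omega, rfl⟩
      · rintro ⟨l, h2, rfl⟩
        exact ⟨l, by omega, by omega, rfl⟩
    rwa [e] at h1
  · intro t ht htz a haF b hbF hab hza' hzb
    have mem : ∀ x ∈ F, x ≠ z → ∃ j, j ≤ k ∧ x = g j := by
      intro x hx hxz
      have h : x ∈ F \ {z} := ⟨hx, hxz⟩
      rwa [hS] at h
    obtain ⟨j, hj, rfl⟩ := mem t ht htz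
    obtain ⟨i, hik, rfl⟩ := mem a haF (M.ne_of_adj hza').symm
    obtain ⟨i', hik', rfl⟩ := mem b hbF (M.ne_of_adj hzb).symm
    have h1 := (hza i hik).1 hza'
    have h2 := (hza i' hik').1 hzb
    obtain ⟨A, B, c1, c2, c3, c4, c5⟩ := core M F z k g hS hi ha j hj
    rcases h1 with rfl | rfl
    · rcases h2 with rfl | rfl
      · exact absurd rfl hab
      · exact ⟨A, B, c1, c2, c3, c4, c5⟩
    · rcases h2 with rfl | rfl
      · exact ⟨B, A, by rw [Set.union_comm]; exact c1, c2.symm,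
          fun ⟨x, hx, y, hy, h⟩ => c3 ⟨y, hy, x, hx, h.symm⟩, c5, c4⟩
      · exact absurd rfl hab

end Pool.Agent.Helper42.MA
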