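import Pool.Agent.Helper12.MA.StD
import Pool.Agent.Helper12.MA.Lib

/-!
# SUM: two nontrivial separations
-/

set_option autoImplicit false

namespace Pool.Agent.Helper42.MA

open Pool.Agent.Helper12.MA
open Pool.Agent.Helper51.AJ (IsMinor Planar Apex ExMinor Con Tch)
open Pool.Agent.Helper12.NK (rst Kc add cnt Pcy IsFace Cof plus)

private theorem sepFacts {V : Type} {G : SimpleGraph V} {Q L R : Set V} {x y : V}
    (h : Sep G Q x y L R) :
    (∀ v, v ∈ L ∨ v ∈ R ∨ v ∈ Q) ∧ (∀ v, v ∈ L → v ∉ Q) ∧ (∀ v, v ∈ R → v ∉ Q) ∧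
      (∀ v, v ∈ L → v ∉ R) := by
  have hc : ∀ v, v ∈ L ∪ R ↔ v ∉ Q := fun v => by rw [h.cov]; rfl
  refine ⟨fun v => ?_, fun v hv => (hc v).1 (Or.inl hv), fun v hv => (hc v).1 (Or.inr hv),
    fun v hv hv' => Set.disjoint_left.1 h.dis hv hv'⟩
  by_cases hq : v ∈ Q
  · exact Or.inr (Or.inr hq)
  · rcases (hc v).2 hq with h1 | h1
    · exact Or.inl h1
    · exact Or.inr (Or.inl h1)

private theorem split3 {V : Type} [Finite V] {G : SimpleGraph V} {Q L R : Set V} {x y : V}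
    (h : Sep G Q x y L R) (S : Set V) :
    S.ncard = (S ∩ Q).ncard + (S ∩ L).ncard + (S ∩ R).ncard := by
  obtain ⟨c1, c2, c3, c4⟩ := sepFacts h
  have e : S = (S ∩ Q) ∪ (S ∩ L) ∪ (S ∩ R) := by
    ext v
    constructor
    · intro hv
      rcases c1 v with h1 | h1 | h1
      · exact Or.inl (Or.inr ⟨hv, h1⟩)
      · exact Or.inr ⟨hv, h1⟩
      · exact Or.inl (Or.inl ⟨hv, h1⟩)
    · rintro ((h1 | h1) | h1) <;> exact h1.1
  have d1 : Disjoint (S ∩ Q) (S ∩ L) := by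
    rw [Set.disjoint_left]
    rintro v ⟨-, h1⟩ ⟨-, h2⟩
    exact c2 v h2 h1
  have d2 : Disjoint ((S ∩ Q) ∪ (S ∩ L)) (S ∩ R) := by
    rw [Set.disjoint_left]
    rintro v (⟨-, h1⟩ | ⟨-, h1⟩) ⟨-, h2⟩
    · exact c3 v h2 h1
    · exact c4 v h1 h2
  conv_lhs => rw [e]
  rw [Set.ncard_union_eq d2 (Set.toFinite _) (Set.toFinite _),
    Set.ncard_union_eq d1 (Set.toFinite _) (Set.toFinite _)]

private theorem card3 {V : Type} [Finite V] (A B C : Set V) (h1 : Disjoint A B)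
    (h2 : Disjoint (A ∪ B) C) : (A ∪ B ∪ C).ncard = A.ncard + B.ncard + C.ncard := by
  rw [Set.ncard_union_eq h2 (Set.toFinite _) (Set.toFinite _),
    Set.ncard_union_eq h1 (Set.toFinite _) (Set.toFinite _)]

private theorem card3le {V : Type} [Finite V] (A B C : Set V) :
    (A ∪ B ∪ C).ncard ≤ A.ncard + B.ncard + C.ncard := by
  have h1 := Set.ncard_union_le (A ∪ B) C
  have h2 := Set.ncard_union_le A B
  omega

/-- A nonempty set whose neighbourhood is contained in `T` and which misses `y`, `y ∉ T`. -/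
private theorem big {V : Type} [Finite V] {G : SimpleGraph V}
    (hnb : ∀ A : Set V, A.Nonempty → (Nb G A).ncard ≤ 4 → A ∪ Nb G A = Set.univ)
    (A T : Set V) (y : V) (hA : A.Nonempty) (hT : ∀ a ∈ A, ∀ v, G.Adj a v → v ∉ A → v ∈ T)
    (hy : y ∉ A) (hy' : y ∉ T) : 5 ≤ T.ncard := by
  have h1 : Nb G A ⊆ T := by
    rintro v ⟨h2, a, ha, h3⟩
    exact hT a ha v h3 h2
  have h2 : (Nb G A).ncard ≤ T.ncard := Set.ncard_le_ncard h1 (Set.toFinite _)
  by_contra h3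
  have h4 := hnb A hA (by omega)
  have h5 : y ∈ A ∪ Nb G A := by rw [h4]; trivial
  rcases h5 with h5 | h5
  · exact hy h5
  · exact hy' (h1 h5)

set_option maxHeartbeats 2000000 in
theorem hSUM : StBAS → StSPB → StSUM := by
  intro hBAS hSPB V _ G Q L R Q' L' R' x y x' hB hS hS' hx'L hL hR hL' hR' hmin
  obtain ⟨-, -, -, hdeg, -, hnb, -⟩ := hBAS V G hB
  obtain ⟨c1, c2, c3, c4⟩ := sepFacts hS
  obtain ⟨c1', c2', c3', c4'⟩ := sepFacts hS'
  have xL := hS.xL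
  have yR := hS.yR
  have xL' := hS'.xL
  have x'R' := hS'.yR
  have xy : x ≠ y := G.ne_of_adj hS.adj
  have xx' : x ≠ x' := G.ne_of_adj hS'.adj
  have yx' : y ≠ x' := fun h => c4 x' hx'L (h ▸ yR)
  have yR' : y ∉ R' := fun h => yx' (hS'.only x xL' y h hS.adj).2
  -- numbers
  have n1 := split3 hS' Q
  have n2 := split3 hS Q'
  have n3 := split3 hS' L
  have n4 := split3 hS L'
  have n5 := split3 hS R'
  rw [hS.card] at n1
  rw [hS'.card] at n2
  rw [Set.inter_comm Q' Q] at n2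
  rw [Set.inter_comm L Q'] at n3
  rw [Set.inter_comm L' Q, Set.inter_comm L' L, Set.inter_comm L' R] at n4
  rw [Set.inter_comm R' Q, Set.inter_comm R' L, Set.inter_comm R' R] at n5
  -- the boundary sets
  have dB : ((Q ∩ Q') ∪ (Q ∩ R') ∪ (Q' ∩ L)).ncard =
      (Q ∩ Q').ncard + (Q ∩ R').ncard + (Q' ∩ L).ncard := by
    refine card3 _ _ _ ?_ ?_
    · rw [Set.disjoint_left]
      rintro v ⟨-, h1⟩ ⟨-, h2⟩
      exact c3' v h2 h1
    · rw [Set.disjoint_left]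
      rintro v (⟨h1, -⟩ | ⟨h1, -⟩) ⟨-, h2⟩
      · exact c2 v h2 h1
      · exact c2 v h2 h1
  have dA := card3le (Q ∩ Q') (Q ∩ L') (Q' ∩ L)
  have dC := card3le (Q ∩ Q') (Q ∩ R') (Q' ∩ R)
  have dD := card3le (Q ∩ Q') (Q ∩ L') (Q' ∩ R)
  -- (1)
  have b1 : ∀ b ∈ L ∩ R', ∀ v, G.Adj b v → v ∉ L ∩ R' →
      v ∈ insert x ((Q ∩ Q') ∪ (Q ∩ R') ∪ (Q' ∩ L)) := by
    rintro b ⟨bL, bR'⟩ v hv hn
    rcases c1 v with h1 | h1 | h1
    · rcases c1' v with h2 | h2 | h2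
      · exact Or.inl (hS'.only v h2 b bR' hv.symm).1
      · exact absurd ⟨h1, h2⟩ hn
      · exact Or.inr (Or.inr ⟨h2, h1⟩)
    · have h3 := (hS.only b bL v h1 hv).1
      rw [h3] at bR'
      exact absurd bR' (c4' x xL')
    · rcases c1' v with h2 | h2 | h2
      · have h3 := (hS'.only v h2 b bR' hv.symm).1
        rw [h3] at h1
        exact absurd h1 (c2 x xL)
      · exact Or.inr (Or.inl (Or.inr ⟨h1, h2⟩))
      · exact Or.inr (Or.inl (Or.inl ⟨h1, h2⟩))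
  have yB : y ∉ insert x ((Q ∩ Q') ∪ (Q ∩ R') ∪ (Q' ∩ L)) := by
    rintro (h | (⟨h, -⟩ | ⟨h, -⟩) | ⟨-, h⟩)
    · exact xy h.symm
    · exact c3 y yR h
    · exact c3 y yR h
    · exact c4 y h yR
  have b2 := big hnb (L ∩ R') _ y ⟨x', hx'L, x'R'⟩ b1 (fun h => yR' h.2) yB
  have b3 := Set.ncard_insert_le x ((Q ∩ Q') ∪ (Q ∩ R') ∪ (Q' ∩ L))
  have bpos : 1 ≤ (L ∩ R').ncard :=
    (Set.ncard_pos (Set.toFinite _)).2 ⟨x', hx'L, x'R'⟩
  have apos : 1 ≤ (L ∩ L').ncard := (Set.ncard_pos (Set.toFinite _)).2 ⟨x, xL, xL'⟩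
  -- (2)
  have a1 : ∀ a ∈ (L ∩ L') \ {x}, ∀ v, G.Adj a v → v ∉ (L ∩ L') \ {x} →
      v ∈ insert x ((Q ∩ Q') ∪ (Q ∩ L') ∪ (Q' ∩ L)) := by
    rintro a ⟨⟨aL, aL'⟩, ax⟩ v hv hn
    have ax' : a ≠ x := ax
    rcases c1 v with h1 | h1 | h1
    · rcases c1' v with h2 | h2 | h2
      · by_cases h3 : v = x
        · exact Or.inl h3
        · exact absurd ⟨⟨h1, h2⟩, h3⟩ hn
      · exact absurd (hS'.only a aL' v h2 hv).1 ax'
      · exact Or.inr (Or.inr ⟨h2, h1⟩)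
    · exact absurd (hS.only a aL v h1 hv).1 ax'
    · rcases c1' v with h2 | h2 | h2
      · exact Or.inr (Or.inl (Or.inr ⟨h1, h2⟩))
      · exact absurd (hS'.only a aL' v h2 hv).1 ax'
      · exact Or.inr (Or.inl (Or.inl ⟨h1, h2⟩))
  have yA : y ∉ insert x ((Q ∩ Q') ∪ (Q ∩ L') ∪ (Q' ∩ L)) := by
    rintro (h | (⟨h, -⟩ | ⟨h, -⟩) | ⟨-, h⟩)
    · exact xy h.symm
    · exact c3 y yR h
    · exact c3 y yR h
    · exact c4 y h yR
  have a3 := Set.ncard_insert_le x ((Q ∩ Q') ∪ (Q ∩ L') ∪ (Q' ∩ L))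
  have a2 : (Q ∩ Q').ncard + (Q ∩ L').ncard + (Q' ∩ L).ncard ≤ 3 → L ∩ L' = {x} := by
    intro h
    by_contra h0
    have hne : ((L ∩ L') \ {x}).Nonempty := by
      by_contra h1
      rw [Set.not_nonempty_iff_eq_empty] at h1
      refine h0 (Set.Subset.antisymm (Set.sdiff_eq_empty.1 h1) ?_)
      rintro v hv
      rw [show v = x from hv]
      exact ⟨xL, xL'⟩
    have := big hnb _ _ y hne a1 (fun h2 => c4 y h2.1.1 yR) yA
    omega
  -- neighbours of `x`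
  have xN : L ∩ L' = {x} → ∀ v, G.Adj x v →
      v ∈ ((Q ∩ Q') ∪ (Q ∩ L') ∪ (Q' ∩ L)) ∪ {x', y} := by
    intro hA v hv
    rcases c1 v with h1 | h1 | h1
    · rcases c1' v with h2 | h2 | h2
      · have h3 : v ∈ L ∩ L' := ⟨h1, h2⟩
        rw [hA] at h3
        exact absurd h3 (G.ne_of_adj hv).symm
      · exact Or.inr (Or.inl (hS'.only x xL' v h2 hv).2)
      · exact Or.inl (Or.inr ⟨h2, h1⟩)
    · exact Or.inr (Or.inr (hS.only x xL v h1 hv).2)
    · rcases c1' v with h2 | h2 | h2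
      · exact Or.inl (Or.inl (Or.inr ⟨h1, h2⟩))
      · exact Or.inr (Or.inl (hS'.only x xL' v h2 hv).2)
      · exact Or.inl (Or.inl (Or.inl ⟨h1, h2⟩))
  -- (3)
  have cC : (R ∩ R').Nonempty → 5 ≤ (Q ∩ Q').ncard + (Q ∩ R').ncard + (Q' ∩ R).ncard := by
    intro hne
    refine le_trans ?_ dC
    refine big hnb (R ∩ R') _ x hne ?_ (fun h => c4 x xL h.1) ?_
    · rintro a ⟨aR, aR'⟩ v hv hn
      rcases c1 v with h1 | h1 | h1
      · have h3 := (hS.only v h1 a aR hv.symm).2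
        rw [h3] at aR'
        exact absurd aR' yR'
      · rcases c1' v with h2 | h2 | h2
        · have h3 := (hS'.only v h2 a aR' hv.symm).1
          rw [h3] at h1
          exact absurd h1 (c4 x xL)
        · exact absurd ⟨h1, h2⟩ hn
        · exact Or.inr ⟨h2, h1⟩
      · rcases c1' v with h2 | h2 | h2
        · have h3 := (hS'.only v h2 a aR' hv.symm).1
          rw [h3] at h1
          exact absurd h1 (c2 x xL)
        · exact Or.inl (Or.inr ⟨h1, h2⟩)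
        · exact Or.inl (Or.inl ⟨h1, h2⟩)
    · rintro ((⟨h, -⟩ | ⟨h, -⟩) | ⟨-, h⟩)
      · exact c2 x xL h
      · exact c2 x xL h
      · exact c4 x xL h
  -- (4)
  have m1 := hmin Q' L' R' x x' hS' hL' hR'
  have hDne : (R ∩ L').Nonempty := by
    by_contra h1
    rw [Set.not_nonempty_iff_eq_empty] at h1
    rw [h1, Set.ncard_empty] at n4
    omega
  -- (5)
  have hN : ∀ a ∈ R ∩ L', ∀ v, G.Adj a v → v ∉ R ∩ L' →
      (v = x ∧ a = y) ∨ v ∈ (Q ∩ Q') ∪ (Q ∩ L') ∪ (Q' ∩ R) := by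
    rintro a ⟨aR, aL'⟩ v hv hn
    rcases c1 v with h1 | h1 | h1
    · exact Or.inl (hS.only v h1 a aR hv.symm)
    · rcases c1' v with h2 | h2 | h2
      · exact absurd ⟨h1, h2⟩ hn
      · have h3 := (hS'.only a aL' v h2 hv).1
        rw [h3] at aR
        exact absurd aR (c4 x xL)
      · exact Or.inr (Or.inr ⟨h2, h1⟩)
    · rcases c1' v with h2 | h2 | h2
      · exact Or.inr (Or.inl (Or.inr ⟨h1, h2⟩))
      · have h3 := (hS'.only a aL' v h2 hv).1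
        rw [h3] at aR
        exact absurd aR (c4 x xL)
      · exact Or.inr (Or.inl (Or.inl ⟨h1, h2⟩))
  have x'D : x' ∉ (Q ∩ Q') ∪ (Q ∩ L') ∪ (Q' ∩ R) := by
    rintro ((⟨h, -⟩ | ⟨h, -⟩) | ⟨-, h⟩)
    · exact c2 x' hx'L h
    · exact c2 x' hx'L h
    · exact c4 x' hx'L h
  have d3 := Set.ncard_insert_le x ((Q ∩ Q') ∪ (Q ∩ L') ∪ (Q' ∩ R))
  have d1 := big hnb (R ∩ L') (insert x ((Q ∩ Q') ∪ (Q ∩ L') ∪ (Q' ∩ R))) x' hDne
    (fun a ha v hv hn => by
      rcases hN a ha v hv hn with h | h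
      · exact Or.inl h.1
      · exact Or.inr h)
    (fun h => c4 x' hx'L h.1)
    (by
      rintro (h | h)
      · exact xx' h.symm
      · exact x'D h)
  have yD : y ∈ R ∩ L' := by
    by_contra h0
    have := big hnb (R ∩ L') ((Q ∩ Q') ∪ (Q ∩ L') ∪ (Q' ∩ R)) x' hDne
      (fun a ha v hv hn => by
        rcases hN a ha v hv hn with h | h
        · rw [h.2] at ha
          exact absurd ha h0
        · exact h)
      (fun h => c4 x' hx'L h.1) x'D
    omega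
  have e1 : (Q ∩ Q').ncard + (Q ∩ R').ncard + (Q' ∩ L).ncard = 4 := by omega
  have hx'B : x' ∈ L ∩ R' := ⟨hx'L, x'R'⟩
  have hxB : x ∉ ((Q ∩ Q') ∪ (Q ∩ R') ∪ (Q' ∩ L)) ∪ (L ∩ R') := by
    rintro (((⟨h, -⟩ | ⟨h, -⟩) | ⟨h, -⟩) | ⟨-, h⟩)
    · exact c2 x xL h
    · exact c2 x xL h
    · exact c2' x xL' h
    · exact c4' x xL' h
  have hSB : Sep G ((Q ∩ Q') ∪ (Q ∩ R') ∪ (Q' ∩ L)) x' x (L ∩ R')
      (((Q ∩ Q') ∪ (Q ∩ R') ∪ (Q' ∩ L)) ∪ (L ∩ R'))ᶜ := by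
    refine ⟨by rw [dB]; exact e1, ?_, ?_, hx'B, hxB, hS'.adj.symm, ?_⟩
    · ext v
      constructor
      · rintro (h | h)
        · rintro ((⟨h1, -⟩ | ⟨h1, -⟩) | ⟨h1, -⟩)
          · exact c2 v h.1 h1
          · exact c2 v h.1 h1
          · exact c3' v h.2 h1
        · exact fun h1 => h (Or.inl h1)
      · intro h
        by_cases h1 : v ∈ L ∩ R'
        · exact Or.inl h1
        · refine Or.inr ?_
          rintro (h2 | h2)
          · exact h h2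
          · exact h1 h2
    · rw [Set.disjoint_left]
      exact fun v h h1 => h1 (Or.inr h)
    · intro a ha b hb hab
      have h1 : b ∉ L ∩ R' := fun h => hb (Or.inr h)
      rcases b1 a ha b hab h1 with h2 | h2
      · rw [h2] at hab
        exact ⟨(hS'.only x xL' a ha.2 hab.symm).2, h2⟩
      · exact absurd (Or.inl h2) hb
  have hyB : y ∈ (((Q ∩ Q') ∪ (Q ∩ R') ∪ (Q' ∩ L)) ∪ (L ∩ R'))ᶜ := by
    rintro (h | h)
    · exact yB (Or.inr h)
    · exact yR' h.2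
  have eB : L ∩ R' = {x'} := by
    by_contra h0
    have h1 := hmin _ _ _ _ _ hSB h0 (fun h => xy (by
      have := hyB
      rw [h] at this
      exact (show y = x from this).symm))
    omega
  have x'N := (hSPB V G _ _ _ _ _ hB hSB).2.2.2.2 eB
  have nB : (L ∩ R').ncard = 1 := by rw [eB]; exact Set.ncard_singleton _
  -- (6)
  have hS'' := (hSPB V G _ _ _ _ _ hB hS').2.2.1
  have m2 := hmin Q' R' L' x' x hS'' hR' hL'
  have e2 : (Q ∩ Q').ncard + (Q ∩ L').ncard + (Q' ∩ L).ncard ≤ 3 := by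
    by_cases hC : (R ∩ R').Nonempty
    · have := cC hC
      omega
    · rw [Set.not_nonempty_iff_eq_empty] at hC
      rw [hC, Set.ncard_empty] at n5
      omega
  have eA := a2 e2
  -- (7)
  have hxN := xN eA
  have p1 : {a | G.Adj x a} ⊆ ((Q ∩ Q') ∪ (Q ∩ L') ∪ (Q' ∩ L)) ∪ {x', y} := fun v hv => hxN v hv
  have p2 := Set.ncard_union_le ((Q ∩ Q') ∪ (Q ∩ L') ∪ (Q' ∩ L)) {x', y}
  have p3 : ({x', y} : Set V).ncard = 2 := Set.ncard_pair yx'.symm
  have p4 := hdeg x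
  have p5 := Set.ncard_le_ncard p1 (Set.toFinite _)
  have eN : {a | G.Adj x a} = ((Q ∩ Q') ∪ (Q ∩ L') ∪ (Q' ∩ L)) ∪ {x', y} :=
    Set.eq_of_subset_of_ncard_le p1 (by omega) (Set.toFinite _)
  have hN2 : ∀ t, G.Adj x t ↔ t ∈ ((Q ∩ Q') ∪ (Q ∩ L') ∪ (Q' ∩ L)) ∪ {x', y} := by
    intro t
    rw [← eN]
    rfl
  have q0 : ((Q ∩ L').ncard = 0 ∧ (Q ∩ Q').ncard = 3 ∧ (Q' ∩ L).ncard = 0 ∧ (Q ∩ R').ncard = 1) ∨
      ((Q ∩ L').ncard = 1 ∧ (Q ∩ Q').ncard = 1 ∧ (Q' ∩ L).ncard = 1 ∧ (Q ∩ R').ncard = 2) := by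
    omega
  rcases q0 with ⟨k1, k2, k3, k4⟩ | ⟨k1, k2, k3, k4⟩
  · left
    have z1 := (Set.ncard_eq_zero (Set.toFinite _)).1 k1
    have z3 := (Set.ncard_eq_zero (Set.toFinite _)).1 k3
    obtain ⟨q₁, q₂, q₃, -, -, -, z2⟩ := Set.ncard_eq_three.1 k2
    obtain ⟨q₄, z4⟩ := Set.ncard_eq_one.1 k4
    refine ⟨q₁, q₂, q₃, q₄, ⟨fun t => ?_, fun t => ?_⟩⟩
    · rw [hN2 t, z1, z2, z3]
      simp only [Set.mem_union, Set.mem_insert_iff, Set.mem_singleton_iff, Set.mem_empty_iff_false,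
        or_false]
      tauto
    · rw [x'N t, z2, z3, z4]
      simp only [Set.mem_union, Set.mem_insert_iff, Set.mem_singleton_iff, Set.mem_empty_iff_false,
        or_false]
      tauto
  · right
    obtain ⟨a, z1⟩ := Set.ncard_eq_one.1 k1
    obtain ⟨c, z2⟩ := Set.ncard_eq_one.1 k2
    obtain ⟨l, z3⟩ := Set.ncard_eq_one.1 k3
    obtain ⟨b₁, b₂, -, z4⟩ := Set.ncard_eq_two.1 k4
    have ha : a ∈ Q ∩ L' := by rw [z1]; rfl
    have hl : l ∈ Q' ∩ L := by rw [z3]; rfl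
    have hb₁ : b₁ ∈ Q ∩ R' := by rw [z4]; exact Or.inl rfl
    have hb₂ : b₂ ∈ Q ∩ R' := by rw [z4]; exact Or.inr rfl
    have memL : ∀ t, t ∈ L → t = x ∨ t = x' ∨ t = l := by
      intro t ht
      rcases c1' t with h | h | h
      · have h1 : t ∈ L ∩ L' := ⟨ht, h⟩
        rw [eA] at h1
        exact Or.inl h1
      · have h1 : t ∈ L ∩ R' := ⟨ht, h⟩
        rw [eB] at h1
        exact Or.inr (Or.inl h1)
      · have h1 : t ∈ Q' ∩ L := ⟨h, ht⟩
        rw [z3] at h1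
        exact Or.inr (Or.inr h1)
    have noAdj : ∀ b ∈ R', ¬ G.Adj a b := by
      intro b hb h
      have h1 := (hS'.only a ha.2 b hb h).1
      exact c2 x xL (h1 ▸ ha.1)
    refine ⟨l, c, a, b₁, b₂, fun t => ?_, fun t => ?_, ?_, fun t ht => ?_, noAdj b₁ hb₁.2,
      noAdj b₂ hb₂.2, fun h => c4' a ha.2 (h ▸ hb₁.2), fun h => c4' a ha.2 (h ▸ hb₂.2),
      fun h => c3 y yR (h ▸ hb₁.1), fun h => c3 y yR (h ▸ hb₂.1)⟩
    · rw [hN2 t, z1, z2, z3]
      simp only [Set.mem_union, Set.mem_insert_iff, Set.mem_singleton_iff]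
      tauto
    · rw [x'N t, z2, z3, z4]
      simp only [Set.mem_union, Set.mem_insert_iff, Set.mem_singleton_iff]
      tauto
    · have h1 := (hSPB V G _ _ _ _ _ hB hS).2.2.2.1 hL
      have h2 : a ∈ insert x Q := Or.inr ha.1
      rw [← h1] at h2
      obtain ⟨-, b, ⟨hb, hbx⟩, hab⟩ := h2
      rcases memL b hb with h | h | h
      · exact absurd h hbx
      · rw [h] at hab
        exact absurd hab.symm (noAdj x' x'R')
      · rw [h] at hab
        exact hab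
    · rcases c1 t with h | h | h
      · rcases memL t h with h1 | h1 | h1
        · exact Or.inl h1
        · exact Or.inr (Or.inl h1)
        · exact absurd h1 (G.ne_of_adj ht).symm
      · have h1 := (hS.only l hl.2 t h ht).1
        exact absurd (h1 ▸ hl.1) (c2' x xL')
      · rcases c1' t with h1 | h1 | h1
        · have h2 : t ∈ Q ∩ L' := ⟨h, h1⟩
          rw [z1] at h2
          exact Or.inr (Or.inr (Or.inr (Or.inl h2)))
        · have h2 : t ∈ Q ∩ R' := ⟨h, h1⟩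
          rw [z4] at h2
          exact Or.inr (Or.inr (Or.inr (Or.inr h2)))
        · have h2 : t ∈ Q ∩ Q' := ⟨h, h1⟩
          rw [z2] at h2
          exact Or.inr (Or.inr (Or.inl h2))

end Pool.Agent.Helper42.MA
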